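import Mathlib

/-!
# Rademacher functionals on `ℓ_∞`

`B` is a countable set: the pairs of a binary word `s` of length `n` and a sign function `q` on the
binary words of length `n`.  For `i, ξ : ℕ → Bool` let `mu i` be the limit along an ultrafilter of
the averages over the finite sets `{(i|n, q) : q}`, and `rad ξ (s, q) = ± 1` according to `q (ξ|n)`.
The functions `rad ξ` are orthonormal for `mu i`.
-/

set_option autoImplicit false

namespace Pool.Agent.K9h79.TSP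

open Filter Topology BoundedContinuousFunction

/-- the limit of a bounded sequence along an ultrafilter -/
noncomputable def UL (a : ℕ → ℝ) : ℝ := limUnder (hyperfilter ℕ : Filter ℕ) a

lemma tendsto_UL {a : ℕ → ℝ} {C : ℝ} (h : ∀ n, |a n| ≤ C) :
    Tendsto a (hyperfilter ℕ : Filter ℕ) (𝓝 (UL a)) := by
  have hc : IsCompact (Set.Icc (-C) C) := isCompact_Icc
  have h1 : ((Ultrafilter.map a (hyperfilter ℕ) : Ultrafilter ℝ) : Filter ℝ) ≤
      𝓟 (Set.Icc (-C) C) := by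
    rw [Filter.le_principal_iff]
    exact Filter.mem_map.2 (Filter.univ_mem' fun n => abs_le.1 (h n))
  obtain ⟨x, -, hx⟩ := isCompact_iff_ultrafilter_le_nhds.1 hc _ h1
  exact tendsto_nhds_limUnder ⟨x, hx⟩

lemma UL_eq {a : ℕ → ℝ} {x : ℝ} (h : Tendsto a (hyperfilter ℕ : Filter ℕ) (𝓝 x)) : UL a = x :=
  h.limUnder_eq

lemma UL_eventually {a : ℕ → ℝ} {x : ℝ} (h : ∀ᶠ n in atTop, a n = x) : UL a = x := by
  apply UL_eq
  have h1 : ∀ᶠ n in (hyperfilter ℕ : Filter ℕ), a n = x := Nat.hyperfilter_le_atTop h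
  exact tendsto_const_nhds.congr' (h1.mono fun n hn => hn.symm)

/-- the pairs of a binary word `s` of length `n` and a sign function `q` on the words of length
`n` -/
structure B where
  /-- the length -/
  n : ℕ
  /-- the word -/
  s : Fin n → Bool
  /-- the sign function -/
  q : (Fin n → Bool) → Bool

instance : TopologicalSpace B := ⊥
instance : DiscreteTopology B := ⟨rfl⟩
instance : Countable B := by
  have h : Function.Injective
      (fun b : B => (⟨b.n, (b.s, b.q)⟩ : Σ n : ℕ, (Fin n → Bool) × ((Fin n → Bool) → Bool))) := by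
    rintro ⟨n, s, q⟩ ⟨n', s', q'⟩ h
    simp only [Sigma.mk.injEq] at h
    obtain ⟨rfl, h⟩ := h
    simp only [heq_eq_eq, Prod.mk.injEq] at h
    obtain ⟨rfl, rfl⟩ := h
    rfl
  exact h.countable

/-- the initial segment of length `n` -/
def res (i : ℕ → Bool) (n : ℕ) : Fin n → Bool := fun k => i k

lemma res_ne {i j : ℕ → Bool} (h : i ≠ j) : ∀ᶠ n in atTop, res i n ≠ res j n := by
  obtain ⟨k, hk⟩ := Function.ne_iff.1 h
  filter_upwards [eventually_gt_atTop k] with n hn heq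
  exact hk (congrFun heq ⟨k, hn⟩)

/-- the sign of a Boolean value -/
def sg (b : Bool) : ℝ := if b then 1 else -1

lemma sg_not (b : Bool) : sg (!b) = - sg b := by cases b <;> simp [sg]
lemma sg_mul_self (b : Bool) : sg b * sg b = 1 := by cases b <;> simp [sg]
lemma abs_sg (b : Bool) : |sg b| = 1 := by cases b <;> simp [sg]

/-- the Rademacher function belonging to `ξ` -/
noncomputable def rad (ξ : ℕ → Bool) : B →ᵇ ℝ :=
  ofNormedAddCommGroupDiscrete (fun b => sg (b.q (res ξ b.n))) 1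
    (fun b => by rw [Real.norm_eq_abs, abs_sg])

@[simp] lemma rad_apply (ξ : ℕ → Bool) (b : B) : rad ξ b = sg (b.q (res ξ b.n)) := rfl

lemma rad_mul_self (ξ : ℕ → Bool) : rad ξ * rad ξ = 1 := by
  ext b
  simp [sg_mul_self]

/-- the average over the block `{(i|n, q) : q}` -/
noncomputable def avg (i : ℕ → Bool) (n : ℕ) (f : B →ᵇ ℝ) : ℝ :=
  (∑ q : (Fin n → Bool) → Bool, f ⟨n, res i n, q⟩) / (Fintype.card ((Fin n → Bool) → Bool) : ℝ)

lemma card_pos' (n : ℕ) : (0 : ℝ) < (Fintype.card ((Fin n → Bool) → Bool) : ℝ) := by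
  exact_mod_cast Fintype.card_pos

lemma avg_add (i : ℕ → Bool) (n : ℕ) (f g : B →ᵇ ℝ) : avg i n (f + g) = avg i n f + avg i n g := by
  simp [avg, Finset.sum_add_distrib, add_div]

lemma avg_smul (i : ℕ → Bool) (n : ℕ) (c : ℝ) (f : B →ᵇ ℝ) : avg i n (c • f) = c * avg i n f := by
  simp only [avg, coe_smul, smul_eq_mul, ← Finset.mul_sum, mul_div_assoc]

lemma abs_avg_le (i : ℕ → Bool) (n : ℕ) (f : B →ᵇ ℝ) : |avg i n f| ≤ ‖f‖ := by
  unfold avg
  rw [abs_div, abs_of_pos (card_pos' n), div_le_iff₀ (card_pos' n)]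
  refine (Finset.abs_sum_le_sum_abs _ _).trans ?_
  have : ∀ q ∈ (Finset.univ : Finset ((Fin n → Bool) → Bool)), |f ⟨n, res i n, q⟩| ≤ ‖f‖ :=
    fun q _ => f.norm_coe_le_norm _
  refine (Finset.sum_le_sum this).trans ?_
  rw [Finset.sum_const, nsmul_eq_mul, mul_comm, Finset.card_univ]

lemma tendsto_avg (i : ℕ → Bool) (f : B →ᵇ ℝ) :
    Tendsto (fun n => avg i n f) (hyperfilter ℕ : Filter ℕ) (𝓝 (UL fun n => avg i n f)) :=
  tendsto_UL fun n => abs_avg_le i n f

/-- the mean along the branch `i` -/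
noncomputable def mu (i : ℕ → Bool) : (B →ᵇ ℝ) →L[ℝ] ℝ :=
  LinearMap.mkContinuous
    { toFun := fun f => UL fun n => avg i n f
      map_add' := fun f g => by
        apply UL_eq
        simp only [avg_add]
        exact (tendsto_avg i f).add (tendsto_avg i g)
      map_smul' := fun c f => by
        apply UL_eq
        simp only [avg_smul]
        exact (tendsto_avg i f).const_mul c } 1
    (fun f => by
      rw [one_mul, Real.norm_eq_abs]
      exact le_of_tendsto (tendsto_avg i f).abs (Eventually.of_forall fun n => abs_avg_le i n f))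

lemma mu_apply (i : ℕ → Bool) (f : B →ᵇ ℝ) : mu i f = UL fun n => avg i n f := rfl

lemma abs_mu_le (i : ℕ → Bool) (f : B →ᵇ ℝ) : |mu i f| ≤ ‖f‖ :=
  le_of_tendsto (tendsto_avg i f).abs (Eventually.of_forall fun n => abs_avg_le i n f)

lemma mu_nonneg (i : ℕ → Bool) (f : B →ᵇ ℝ) (h : ∀ b, 0 ≤ f b) : 0 ≤ mu i f := by
  refine ge_of_tendsto (tendsto_avg i f) (Eventually.of_forall fun n => ?_)
  exact div_nonneg (Finset.sum_nonneg fun q _ => h _) (card_pos' n).le

/-- if the values on the blocks of the branch `i` agree eventually then the means agree -/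
lemma mu_congr (i : ℕ → Bool) {f g : B →ᵇ ℝ}
    (h : ∀ᶠ n in atTop, ∀ q, f ⟨n, res i n, q⟩ = g ⟨n, res i n, q⟩) : mu i f = mu i g := by
  rw [mu_apply, mu_apply]
  apply UL_eq
  refine (tendsto_avg i g).congr' ?_
  have h1 := Nat.hyperfilter_le_atTop h
  filter_upwards [h1] with n hn
  simp only [avg, hn]

lemma mu_const (i : ℕ → Bool) : mu i 1 = 1 := by
  rw [mu_apply]
  apply UL_eventually
  refine Eventually.of_forall fun n => ?_
  simp only [avg, coe_one, Pi.one_apply, Finset.sum_const, Finset.card_univ, nsmul_eq_mul, mul_one]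
  exact div_self (card_pos' n).ne'

/-- change of the value of a sign function at one word -/
def flip' {n : ℕ} (a : Fin n → Bool) (q : (Fin n → Bool) → Bool) : (Fin n → Bool) → Bool :=
  Function.update q a (!(q a))

lemma flip_flip {n : ℕ} (a : Fin n → Bool) (q : (Fin n → Bool) → Bool) :
    flip' a (flip' a q) = q := by
  funext x
  by_cases hx : x = a
  · subst hx; simp [flip']
  · simp [flip', hx]

/-- `f` is eventually independent of the coordinate `ξ` on the blocks of the branch `i` -/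
def Ins (i ξ : ℕ → Bool) (f : B →ᵇ ℝ) : Prop :=
  ∀ᶠ n in atTop, ∀ q, f ⟨n, res i n, flip' (res ξ n) q⟩ = f ⟨n, res i n, q⟩

lemma Ins.add {i ξ : ℕ → Bool} {f g : B →ᵇ ℝ} (hf : Ins i ξ f) (hg : Ins i ξ g) :
    Ins i ξ (f + g) := by
  filter_upwards [hf, hg] with n h1 h2 q
  simp [h1 q, h2 q]

lemma Ins.sub {i ξ : ℕ → Bool} {f g : B →ᵇ ℝ} (hf : Ins i ξ f) (hg : Ins i ξ g) :
    Ins i ξ (f - g) := by
  filter_upwards [hf, hg] with n h1 h2 q
  simp [h1 q, h2 q]

lemma Ins.mul {i ξ : ℕ → Bool} {f g : B →ᵇ ℝ} (hf : Ins i ξ f) (hg : Ins i ξ g) :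
    Ins i ξ (f * g) := by
  filter_upwards [hf, hg] with n h1 h2 q
  simp [h1 q, h2 q]

lemma Ins.smul {i ξ : ℕ → Bool} {f : B →ᵇ ℝ} (c : ℝ) (hf : Ins i ξ f) : Ins i ξ (c • f) := by
  filter_upwards [hf] with n h1 q
  simp [h1 q]

lemma ins_rad {i ξ η : ℕ → Bool} (h : η ≠ ξ) : Ins i ξ (rad η) := by
  filter_upwards [res_ne h] with n hn q
  simp [flip', Function.update_of_ne hn]

/-- the mean of `rad ξ * f` is zero if `f` is independent of `ξ` -/
lemma mu_rad_mul {i ξ : ℕ → Bool} {f : B →ᵇ ℝ} (hf : Ins i ξ f) : mu i (rad ξ * f) = 0 := by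
  rw [mu_apply]
  apply UL_eventually
  filter_upwards [hf] with n hn
  have hinv : Function.Involutive (flip' (res ξ n)) := flip_flip (res ξ n)
  have h1 : ∑ q : (Fin n → Bool) → Bool, (rad ξ * f) ⟨n, res i n, q⟩ =
      ∑ q : (Fin n → Bool) → Bool, (rad ξ * f) ⟨n, res i n, flip' (res ξ n) q⟩ :=
    (Equiv.sum_comp hinv.toPerm (fun q => (rad ξ * f) (⟨n, res i n, q⟩ : B))).symm
  have h2 : ∀ q : (Fin n → Bool) → Bool, (rad ξ * f) (⟨n, res i n, flip' (res ξ n) q⟩ : B) =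
      - (rad ξ * f) (⟨n, res i n, q⟩ : B) := by
    intro q
    simp only [coe_mul, Pi.mul_apply, rad_apply, hn q]
    have : flip' (res ξ n) q (res ξ n) = !(q (res ξ n)) := by simp [flip']
    rw [this, sg_not]
    ring
  have h3 : ∑ q : (Fin n → Bool) → Bool, (rad ξ * f) ⟨n, res i n, q⟩ = 0 := by
    have h4 := h1
    simp only [h2, Finset.sum_neg_distrib] at h4
    linarith
  rw [avg, h3, zero_div]

/-- the functional `f ↦ mu i (rad ξ * f)` -/
noncomputable def zz (i ξ : ℕ → Bool) (f : B →ᵇ ℝ) : ℝ := mu i (rad ξ * f)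

lemma zz_add (i ξ : ℕ → Bool) (f g : B →ᵇ ℝ) : zz i ξ (f + g) = zz i ξ f + zz i ξ g := by
  simp [zz, mul_add]

lemma zz_smul (i ξ : ℕ → Bool) (c : ℝ) (f : B →ᵇ ℝ) : zz i ξ (c • f) = c * zz i ξ f := by
  simp only [zz]
  rw [mul_smul_comm, map_smul, smul_eq_mul]

lemma norm_rad_le (ξ : ℕ → Bool) : ‖rad ξ‖ ≤ 1 := by
  rw [BoundedContinuousFunction.norm_le zero_le_one]
  intro b
  rw [Real.norm_eq_abs, rad_apply, abs_sg]

lemma abs_zz_le (i ξ : ℕ → Bool) (f : B →ᵇ ℝ) : |zz i ξ f| ≤ ‖f‖ := by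
  refine (abs_mu_le i _).trans ?_
  refine (norm_mul_le _ _).trans ?_
  calc ‖rad ξ‖ * ‖f‖ ≤ 1 * ‖f‖ := mul_le_mul_of_nonneg_right (norm_rad_le ξ) (norm_nonneg f)
    _ = ‖f‖ := one_mul _

lemma zz_sub (i ξ : ℕ → Bool) (f g : B →ᵇ ℝ) : zz i ξ (f - g) = zz i ξ f - zz i ξ g := by
  simp [zz, mul_sub]

/-- Bessel's inequality -/
lemma bessel (i : ℕ → Bool) (f : B →ᵇ ℝ) (F : Finset (ℕ → Bool)) :
    ∑ ξ ∈ F, (zz i ξ f) ^ 2 ≤ ‖f‖ ^ 2 := by
  classical
  set g : B →ᵇ ℝ := ∑ ξ ∈ F, (zz i ξ f) • rad ξ with hg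
  have h1 : mu i (g * f) = ∑ ξ ∈ F, (zz i ξ f) ^ 2 := by
    rw [hg, Finset.sum_mul, map_sum]
    refine Finset.sum_congr rfl fun ξ _ => ?_
    rw [smul_mul_assoc, map_smul, smul_eq_mul, sq]
    rfl
  have horth : ∀ ξ η : ℕ → Bool, mu i (rad ξ * rad η) = if ξ = η then 1 else 0 := by
    intro ξ η
    by_cases h : ξ = η
    · subst h
      rw [rad_mul_self, mu_const, if_pos rfl]
    · rw [if_neg h]
      exact mu_rad_mul (ins_rad (Ne.symm h))
  have h2 : mu i (g * g) = ∑ ξ ∈ F, (zz i ξ f) ^ 2 := by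
    have h3 : ∀ ξ ∈ F, mu i (rad ξ * g) = zz i ξ f := by
      intro ξ hξ
      rw [hg, Finset.mul_sum, map_sum]
      rw [Finset.sum_eq_single ξ]
      · rw [mul_smul_comm, map_smul, horth, if_pos rfl, smul_eq_mul, mul_one]
      · intro η _ hne
        rw [mul_smul_comm, map_smul, horth, if_neg (Ne.symm hne), smul_zero]
      · exact fun h => absurd hξ h
    conv_lhs => rw [show g * g = (∑ ξ ∈ F, (zz i ξ f) • rad ξ) * g by rw [← hg]]
    rw [Finset.sum_mul, map_sum]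
    refine Finset.sum_congr rfl fun ξ hξ => ?_
    rw [smul_mul_assoc, map_smul, h3 ξ hξ, smul_eq_mul, sq]
  have h4 : 0 ≤ mu i ((f - g) * (f - g)) := by
    apply mu_nonneg
    intro b
    simp only [coe_mul, Pi.mul_apply]
    exact mul_self_nonneg _
  have h5 : (f - g) * (f - g) = f * f - (2 : ℝ) • (g * f) + g * g := by
    ext b
    simp only [coe_mul, coe_sub, coe_add, coe_smul, Pi.mul_apply, Pi.sub_apply, Pi.add_apply,
      smul_eq_mul]
    ring
  rw [h5, map_add, map_sub, map_smul, h1, h2, smul_eq_mul] at h4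
  have h6 : mu i (f * f) ≤ ‖f‖ ^ 2 := by
    refine (le_abs_self _).trans ((abs_mu_le i _).trans ?_)
    rw [sq]
    exact norm_mul_le _ _
  linarith

/-- only countably many of the numbers `zz i ξ f` are not zero -/
lemma countable_zz (i : ℕ → Bool) (f : B →ᵇ ℝ) : {ξ | zz i ξ f ≠ 0}.Countable := by
  have h1 : {ξ | zz i ξ f ≠ 0} ⊆ ⋃ n : ℕ, {ξ | 1 / ((n : ℝ) + 1) ≤ |zz i ξ f|} := by
    intro ξ hξ
    rw [Set.mem_iUnion]
    obtain ⟨n, hn⟩ := exists_nat_one_div_lt (abs_pos.2 hξ)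
    exact ⟨n, hn.le⟩
  refine (Set.countable_iUnion fun n => ?_).mono h1
  apply Set.Finite.countable
  by_contra hinf
  have hinf : {ξ | 1 / ((n : ℝ) + 1) ≤ |zz i ξ f|}.Infinite := hinf
  obtain ⟨m, hm⟩ := exists_nat_gt (‖f‖ ^ 2 * ((n : ℝ) + 1) ^ 2)
  obtain ⟨F, hF1, hF2⟩ := hinf.exists_subset_card_eq m
  have hb := bessel i f F
  have hn : (0 : ℝ) < (n : ℝ) + 1 := by positivity
  have h2 : ∑ ξ ∈ F, (1 / ((n : ℝ) + 1)) ^ 2 ≤ ∑ ξ ∈ F, (zz i ξ f) ^ 2 := by
    refine Finset.sum_le_sum fun ξ hξ => ?_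
    rw [← sq_abs (zz i ξ f)]
    exact pow_le_pow_left₀ (by positivity) (hF1 hξ) 2
  rw [Finset.sum_const, hF2, nsmul_eq_mul] at h2
  have h3 : (m : ℝ) * (1 / ((n : ℝ) + 1)) ^ 2 ≤ ‖f‖ ^ 2 := h2.trans hb
  rw [div_pow, one_pow, mul_one_div, div_le_iff₀ (by positivity)] at h3
  linarith

end Pool.Agent.K9h79.TSP
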