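import Pool.Agent.K9h79.TSP.Space

/-!
# Universal injectivity is not a three-space property
-/

set_option autoImplicit false

namespace Pool.Agent.K9h79.TSP

open Filter Topology BoundedContinuousFunction

section
variable {D : Type} [LinearOrder D] [Nonempty D]

/-- the kernel of the projection -/
noncomputable def YY (ξ : List (D × Bool) → (ℕ → Bool)) : Submodule ℝ (XT ξ) := (pr ξ).ker

lemma mem_YY {ξ : List (D × Bool) → (ℕ → Bool)} {x : XT ξ} : x ∈ YY ξ ↔ (incl ξ x).1 = 0 := Iff.rfl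

lemma isClosed_YY (ξ : List (D × Bool) → (ℕ → Bool)) : IsClosed (YY ξ : Set (XT ξ)) :=
  (pr ξ).isClosed_ker

/-- the kernel is universally injective -/
theorem univ_YY {κ : Cardinal.{0}} (h : Bd κ D) (ξ : List (D × Bool) → (ℕ → Bool)) :
    UnivInjective κ (YY ξ) := by
  intro W _ _ _ S _ ⟨Q, hQ1, hQ2⟩ t
  set s2 : S →L[ℝ] (J D →ᵇ ℝ) :=
    (ContinuousLinearMap.snd ℝ (B →ᵇ ℝ) (J D →ᵇ ℝ)).comp
      ((incl ξ).comp ((YY ξ).subtypeL.comp t)) with hs2
  have hs2a : ∀ x : S, s2 x = (incl ξ (t x).1).2 := fun x => rfl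
  obtain ⟨T, hT1, hT2⟩ := ext_disc S s2
  have hmem : ∀ w : W, ((0, T w) : (B →ᵇ ℝ) × (J D →ᵇ ℝ)) ∈ XX ξ := by
    intro w
    rw [mem_XX]
    intro i t₀
    have h1 : ∀ d : Q, ∃ β : D, ∀ (α : D) (b : Bool) (l : List (D × Bool)), β ≤ α →
        s2 d.1 ⟨i, t₀ ++ (α, b) :: l⟩ = s2 d.1 ⟨i, t₀⟩ := by
      intro d
      obtain ⟨β, hβ⟩ := (mem_XX.1 (incl_mem ξ (t d.1).1)) i t₀
      refine ⟨β, fun α b l hα => ?_⟩
      have h2 := hβ α b l hα
      have h3 : (incl ξ (t d.1).1).1 = 0 := mem_YY.1 (t d.1).2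
      have h4 : zz i (ξ t₀) (0 : B →ᵇ ℝ) = 0 := by simp [zz]
      rw [h3, h4, ite_self, add_zero] at h2
      exact h2
    choose β hβ using h1
    obtain ⟨γ, hγ⟩ := h.range β hQ2
    refine ⟨γ, fun α b l hα => ?_⟩
    have h4 : zz i (ξ t₀) (0 : B →ᵇ ℝ) = 0 := by simp [zz]
    show T w _ = T w _ + if b then zz i (ξ t₀) (0 : B →ᵇ ℝ) else 0
    rw [h4, ite_self, add_zero]
    apply hT2
    -- the two functionals agree on the dense set
    have hc : ∀ j : J D, Continuous fun x : S => s2 x j := fun j =>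
      ((BoundedContinuousFunction.evalCLM ℝ j).comp s2).continuous
    have h5 : (fun x : S => s2 x ⟨i, t₀ ++ (α, b) :: l⟩) = fun x : S => s2 x ⟨i, t₀⟩ := by
      refine Continuous.ext_on hQ1 (hc _) (hc _) fun d hd => ?_
      exact hβ ⟨d, hd⟩ α b l ((hγ ⟨d, hd⟩).le.trans hα)
    exact fun x => congrFun h5 x
  set T1 : W →L[ℝ] (B →ᵇ ℝ) × (J D →ᵇ ℝ) := (0 : W →L[ℝ] (B →ᵇ ℝ)).prod T with hT1'
  set T2 : W →L[ℝ] XT ξ := toXT ξ T1 hmem with hT2'
  have hker : ∀ w : W, T2 w ∈ YY ξ := fun w => rfl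
  refine ⟨T2.codRestrict (YY ξ) hker, fun x => ?_⟩
  apply Subtype.ext
  apply incl_inj
  apply Prod.ext
  · exact (mem_YY.1 (t x).2).symm
  · exact hT1 x

/-- the quotient is isomorphic to `ℓ_∞` -/
theorem univ_quot {κ : Cardinal.{0}} (h : Bd κ D) (hκ : Cardinal.aleph0 < κ)
    (ξ : List (D × Bool) → (ℕ → Bool)) (hξ : Function.Injective ξ)
    [hY : IsClosed (YY ξ : Set (XT ξ))] (κ' : Cardinal.{0}) : UnivInjective κ' (XT ξ ⧸ YY ξ) := by
  have : CompleteSpace (XT ξ) := complete_XT h hκ ξ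
  have hle : YY ξ ≤ (pr ξ).ker := le_rfl
  have hinj : ((YY ξ).liftQL (pr ξ) hle).ker = ⊥ := by
    rw [Submodule.toLinearMap_liftQL]
    exact Submodule.ker_liftQ_eq_bot _ _ _ le_rfl
  have hsurj : ((YY ξ).liftQL (pr ξ) hle).range = ⊤ := by
    rw [Submodule.toLinearMap_liftQL, Submodule.range_liftQ]
    exact LinearMap.range_eq_top.2 (pr_surj h hκ ξ hξ)
  exact (univ_disc κ').of_equiv (ContinuousLinearEquiv.ofBijective _ hinj hsurj).symm

/-- the closed span of the unit vectors -/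
noncomputable def SS : Submodule ℝ (B →ᵇ ℝ) := (Submodule.span ℝ (Set.range dl)).topologicalClosure

lemma dl_mem (b : B) : dl b ∈ SS :=
  Submodule.le_topologicalClosure _ (Submodule.subset_span ⟨b, rfl⟩)

lemma zz_SS (i η : ℕ → Bool) (f : SS) : zz i η f.1 = 0 := by
  have h1 : SS ≤ LinearMap.ker
      (((mu i).comp (ContinuousLinearMap.mul ℝ (B →ᵇ ℝ) (rad η))) : (B →ᵇ ℝ) →ₗ[ℝ] ℝ) := by
    apply Submodule.topologicalClosure_minimal
    · rw [Submodule.span_le]
      rintro _ ⟨b, rfl⟩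
      show mu i (rad η * dl b) = 0
      rw [← map_zero (mu i)]
      apply mu_congr
      filter_upwards [eventually_gt_atTop b.n] with n hn q
      have : (⟨n, res i n, q⟩ : B) ≠ b := by
        intro h
        rw [← h] at hn
        exact lt_irrefl _ hn
      show rad η _ * dl b _ = 0
      rw [dl_apply, if_neg this, mul_zero]
    · exact ((mu i).comp (ContinuousLinearMap.mul ℝ (B →ᵇ ℝ) (rad η))).isClosed_ker
  exact h1 f.2

/-- the twisted sum is not universally `ℵ₁`-injective -/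
theorem not_univ_XX (ξ : List (D × Bool) → (ℕ → Bool)) (hξ : Function.Injective ξ) :
    ¬ UnivInjective (Cardinal.aleph 1) (XT ξ) := by
  intro hU
  have hclosed : IsClosed (SS : Set (B →ᵇ ℝ)) := Submodule.isClosed_topologicalClosure _
  have hsep : TopologicalSpace.IsSeparable (SS : Set (B →ᵇ ℝ)) := by
    have h1 : TopologicalSpace.IsSeparable (Set.range dl) :=
      (Set.countable_range dl).isSeparable
    exact h1.span.closure
  have : TopologicalSpace.SeparableSpace SS := hsep.separableSpace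
  obtain ⟨Q, hQ1, hQ2⟩ := TopologicalSpace.exists_countable_dense SS
  have hQ3 : Cardinal.mk Q < Cardinal.aleph 1 :=
    (hQ1.le_aleph0).trans_lt Cardinal.aleph0_lt_aleph_one
  -- the operator
  set t1 : SS →L[ℝ] (B →ᵇ ℝ) × (J D →ᵇ ℝ) := SS.subtypeL.prod 0 with ht1
  have hmem : ∀ f : SS, t1 f ∈ XX ξ := by
    intro f
    rw [mem_XX]
    intro i t
    obtain ⟨β⟩ := (inferInstance : Nonempty D)
    refine ⟨β, fun α b l _ => ?_⟩
    show (0 : ℝ) = 0 + if b then zz i (ξ t) f.1 else 0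
    rw [zz_SS, ite_self, add_zero]
  obtain ⟨T, hT⟩ := hU (B →ᵇ ℝ) SS hclosed ⟨Q, hQ2, hQ3⟩ (toXT ξ t1 hmem)
  -- rigidity
  set V : (B →ᵇ ℝ) →L[ℝ] (B →ᵇ ℝ) := (pr ξ).comp T - ContinuousLinearMap.id ℝ _ with hV
  have hV0 : ∀ b, V (dl b) = 0 := by
    intro b
    have h1 := hT ⟨dl b, dl_mem b⟩
    show (incl ξ (T (dl b))).1 - dl b = 0
    rw [show T (dl b) = T ((⟨dl b, dl_mem b⟩ : SS) : B →ᵇ ℝ) from rfl, h1]
    exact sub_self _
  obtain ⟨i, hi⟩ := rigid V hV0
  have hfst : ∀ f, Supp i f → (incl ξ (T f)).1 = f := by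
    intro f hf
    have := hi f hf
    exact sub_eq_zero.1 this
  -- the family
  let w : (B →ᵇ ℝ) →ₗ[ℝ] (List (D × Bool) → ℝ) :=
    { toFun := fun f t => (incl ξ (T f)).2 ⟨i, t⟩
      map_add' := fun f g => by
        funext t
        rw [map_add, map_add]
        rfl
      map_smul' := fun c f => by
        funext t
        rw [map_smul, map_smul]
        rfl }
  refine no_lift ξ hξ i w ‖T‖ (fun f t => ?_) (fun f hf t => ?_)
  · calc |(incl ξ (T f)).2 ⟨i, t⟩| ≤ ‖(incl ξ (T f)).2‖ := (incl ξ (T f)).2.norm_coe_le_norm _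
      _ ≤ ‖incl ξ (T f)‖ := norm_snd_le _
      _ = ‖T f‖ := norm_incl ξ _
      _ ≤ ‖T‖ * ‖f‖ := T.le_opNorm f
  · obtain ⟨β, hβ⟩ := (mem_XX.1 (incl_mem ξ (T f))) i t
    refine ⟨β, fun α b l hα => ?_⟩
    have h1 := hβ α b l hα
    rw [hfst f hf] at h1
    exact h1

end

/-- the bounded order belonging to a regular cardinal -/
lemma exists_bd {κ : Cardinal.{0}} (hκ : κ.IsRegular) : Bd κ κ.ord.ToType := by
  intro s hs
  have h1 : ¬ IsCofinal s := by
    intro hc
    have h2 : Order.cof κ.ord.ToType ≤ Cardinal.mk s := Order.cof_le hc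
    rw [Ordinal.cof_toType, hκ.cof_ord] at h2
    exact absurd hs (not_lt.2 h2)
  unfold IsCofinal at h1
  push Not at h1
  obtain ⟨β, hβ⟩ := h1
  exact ⟨β, hβ⟩

lemma exists_inj {κ : Cardinal.{0}} (hc : κ ≤ Cardinal.continuum) :
    ∃ ξ : List (κ.ord.ToType × Bool) → (ℕ → Bool), Function.Injective ξ := by
  have h1 : Cardinal.mk (List (κ.ord.ToType × Bool)) ≤ Cardinal.mk (ℕ → Bool) := by
    have h2 : Cardinal.mk κ.ord.ToType = κ := Cardinal.mk_ord_toType κ
    have h3 : Cardinal.mk (κ.ord.ToType × Bool) ≤ Cardinal.continuum := by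
      rw [Cardinal.mk_prod, h2]
      simp only [Cardinal.lift_id, Cardinal.mk_fintype, Fintype.card_bool]
      refine (Cardinal.mul_le_max _ _).trans ?_
      refine max_le (max_le hc ?_) Cardinal.aleph0_le_continuum
      exact_mod_cast (Cardinal.nat_lt_continuum 2).le
    refine (Cardinal.mk_list_le_max _).trans ?_
    have h4 : Cardinal.mk (ℕ → Bool) = Cardinal.continuum := by simp
    rw [h4]
    exact max_le Cardinal.aleph0_le_continuum h3
  obtain ⟨f⟩ := h1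
  exact ⟨f, f.injective⟩

end Pool.Agent.K9h79.TSP
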