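import Pool.Agent.K9h79.TSP.Rigid

/-!
# The Riesz product argument: no bounded family with the prescribed jumps
-/

set_option autoImplicit false

namespace Pool.Agent.K9h79.TSP

open Filter Topology BoundedContinuousFunction

/-- the indicator function of the branch -/
noncomputable def chi (i : ℕ → Bool) : B →ᵇ ℝ := cut {b : B | b.s = res i b.n} 1

lemma chi_on (i : ℕ → Bool) (n : ℕ) (q : (Fin n → Bool) → Bool) : chi i ⟨n, res i n, q⟩ = 1 := by
  rw [chi, cut_apply, Set.indicator_of_mem]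
  · rfl
  · rfl

lemma chi_supp (i : ℕ → Bool) : Supp i (chi i) := by
  intro b hb
  rw [chi, cut_apply, Set.indicator_of_notMem]
  exact hb

lemma chi_le (i : ℕ → Bool) (b : B) : chi i b ^ 2 ≤ 1 := by
  classical
  rw [chi, cut_apply, Set.indicator_apply]
  split_ifs <;> simp

lemma Supp.add {i : ℕ → Bool} {f g : B →ᵇ ℝ} (hf : Supp i f) (hg : Supp i g) :
    Supp i (f + g) := fun b hb => by
  show f b + g b = 0
  rw [hf b hb, hg b hb, add_zero]

lemma Supp.sub {i : ℕ → Bool} {f g : B →ᵇ ℝ} (hf : Supp i f) (hg : Supp i g) :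
    Supp i (f - g) := fun b hb => by
  show f b - g b = 0
  rw [hf b hb, hg b hb, sub_zero]

lemma Supp.smul {i : ℕ → Bool} {f : B →ᵇ ℝ} (c : ℝ) (hf : Supp i f) :
    Supp i (c • f) := fun b hb => by
  show c * f b = 0
  rw [hf b hb, mul_zero]

lemma Supp.mul {i : ℕ → Bool} {f : B →ᵇ ℝ} (g : B →ᵇ ℝ) (hf : Supp i f) :
    Supp i (g * f) := fun b hb => by
  show g b * f b = 0
  rw [hf b hb, mul_zero]

lemma rad_sq (ξ : ℕ → Bool) (b : B) : rad ξ b ^ 2 = 1 := by
  rw [rad_apply, sq, sg_mul_self]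

section
variable {D : Type} [LinearOrder D]

/-- the inductive construction -/
theorem riesz_step (ξ : List (D × Bool) → (ℕ → Bool)) (hξ : Function.Injective ξ) (i : ℕ → Bool)
    (w : (B →ᵇ ℝ) →ₗ[ℝ] (List (D × Bool) → ℝ))
    (hj : ∀ f, Supp i f → ∀ t, ∃ β : D, ∀ (α : D) (b : Bool) (l : List (D × Bool)), β ≤ α →
      w f (t ++ (α, b) :: l) = w f t + if b then zz i (ξ t) f else 0)
    (ε : ℝ) (hε : 0 ≤ ε) (m : ℕ) :
    ∃ (t : List (D × Bool)) (A Bf : B →ᵇ ℝ) (F : Set (ℕ → Bool)),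
      Supp i A ∧ Supp i Bf ∧ (∀ η, η ∉ F → Ins i η A ∧ Ins i η Bf) ∧ (∀ l, ξ (t ++ l) ∉ F) ∧
      mu i A = 1 ∧ (∀ b, A b ^ 2 + Bf b ^ 2 ≤ (1 + ε ^ 2) ^ m) ∧
      ∀ l, m * ε / 2 ≤ w Bf (t ++ l) := by
  induction m with
  | zero =>
    refine ⟨[], chi i, 0, ∅, chi_supp i, fun b _ => rfl, fun η _ => ⟨?_, ?_⟩, fun l => id, ?_, ?_, ?_⟩
    · exact Eventually.of_forall fun n q => by rw [chi_on, chi_on]
    · exact Eventually.of_forall fun n q => rfl
    · rw [← mu_const i]
      exact mu_congr i (Eventually.of_forall fun n q => by rw [chi_on]; rfl)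
    · intro b
      have := chi_le i b
      simpa using this
    · intro l
      simp
  | succ m ih =>
    obtain ⟨t, A, Bf, F, h1, h2, h3, h4, h5, h6, h7⟩ := ih
    set ζ := ξ t with hζ
    have hζF : ζ ∉ F := by
      have := h4 []
      rwa [List.append_nil] at this
    set f : B →ᵇ ℝ := rad ζ * A with hf
    have hfs : Supp i f := h1.mul _
    obtain ⟨β, hβ⟩ := hj f hfs t
    have hz : zz i ζ f = 1 := by
      rw [zz, hf, ← mul_assoc, rad_mul_self, one_mul, h5]
    set a := w f t with ha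
    obtain ⟨b, σ, hσ1, hσ2⟩ : ∃ (b : Bool) (σ : ℝ), σ ^ 2 = 1 ∧
        1 / 2 ≤ σ * (a + if b then (1 : ℝ) else 0) := by
      by_cases hc : -(1 / 2) ≤ a
      · exact ⟨true, 1, by norm_num, by simp only [if_true]; linarith⟩
      · push Not at hc
        refine ⟨false, -1, by norm_num, ?_⟩
        simp only [Bool.false_eq_true, if_false]
        linarith
    have key : ∀ l, w f (t ++ (β, b) :: l) = a + if b then (1 : ℝ) else 0 := by
      intro l
      rw [hβ β b l le_rfl, hz]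
    refine ⟨t ++ [(β, b)], A - (σ * ε) • (rad ζ * Bf), Bf + (σ * ε) • f, insert ζ F,
      h1.sub ((h2.mul _).smul _), h2.add (hfs.smul _), ?_, ?_, ?_, ?_, ?_⟩
    · intro η hη
      have hη1 : ζ ≠ η := fun h => hη (h ▸ Set.mem_insert _ _)
      have hη2 : η ∉ F := fun h => hη (Set.mem_insert_of_mem _ h)
      obtain ⟨hA, hB⟩ := h3 η hη2
      exact ⟨hA.sub (((ins_rad hη1).mul hB).smul _), hB.add (((ins_rad hη1).mul hA).smul _)⟩
    · intro l hl
      rw [List.append_assoc] at hl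
      rcases Set.mem_insert_iff.1 hl with h | h
      · have := hξ h
        simp at this
      · exact h4 _ h
    · rw [map_sub, map_smul, mu_rad_mul (h3 ζ hζF).2, h5, smul_zero, sub_zero]
    · intro x
      have hA : (A - (σ * ε) • (rad ζ * Bf)) x = A x - σ * ε * (rad ζ x * Bf x) := rfl
      have hB : (Bf + (σ * ε) • f) x = Bf x + σ * ε * (rad ζ x * A x) := rfl
      rw [hA, hB]
      have hr := rad_sq ζ x
      have he : (A x - σ * ε * (rad ζ x * Bf x)) ^ 2 + (Bf x + σ * ε * (rad ζ x * A x)) ^ 2 =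
          (A x ^ 2 + Bf x ^ 2) * (1 + σ ^ 2 * ε ^ 2 * rad ζ x ^ 2) := by ring
      rw [he, hσ1, hr, one_mul, mul_one, pow_succ]
      exact mul_le_mul_of_nonneg_right (h6 x) (by positivity)
    · intro l
      have hwl : w (Bf + (σ * ε) • f) (t ++ [(β, b)] ++ l) =
          w Bf (t ++ (β, b) :: l) + σ * ε * w f (t ++ (β, b) :: l) := by
        rw [map_add, map_smul, List.append_assoc]
        rfl
      rw [hwl, key l]
      have h8 := h7 ((β, b) :: l)
      have h9 : ε * (1 / 2) ≤ ε * (σ * (a + if b then (1 : ℝ) else 0)) :=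
        mul_le_mul_of_nonneg_left hσ2 hε
      push_cast
      nlinarith [h8, h9]

/-- there is no bounded linear family with the jumps `zz i (ξ t) f` at all points `t` -/
theorem no_lift (ξ : List (D × Bool) → (ℕ → Bool)) (hξ : Function.Injective ξ) (i : ℕ → Bool)
    (w : (B →ᵇ ℝ) →ₗ[ℝ] (List (D × Bool) → ℝ)) (C : ℝ) (hC : ∀ f t, |w f t| ≤ C * ‖f‖)
    (hj : ∀ f, Supp i f → ∀ t, ∃ β : D, ∀ (α : D) (b : Bool) (l : List (D × Bool)), β ≤ α →
      w f (t ++ (α, b) :: l) = w f t + if b then zz i (ξ t) f else 0) : False := by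
  obtain ⟨m, hm⟩ := exists_nat_gt ((4 * |C|) ^ 2 + 1)
  have hm0 : (0 : ℝ) < m := by
    have : (0 : ℝ) ≤ (4 * |C|) ^ 2 := by positivity
    linarith
  set ε : ℝ := 1 / Real.sqrt m with hε
  have hs : 0 < Real.sqrt m := Real.sqrt_pos.2 hm0
  have hss : Real.sqrt m * Real.sqrt m = m := Real.mul_self_sqrt hm0.le
  have hε2 : ε ^ 2 = 1 / m := by
    rw [hε, div_pow, one_pow, Real.sq_sqrt hm0.le]
  obtain ⟨t, A, Bf, F, -, -, -, -, -, h6, h7⟩ := riesz_step ξ hξ i w hj ε (by positivity) m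
  have hnorm : ‖Bf‖ ≤ 2 := by
    rw [BoundedContinuousFunction.norm_le (by norm_num)]
    intro x
    rw [Real.norm_eq_abs]
    have h8 : Bf x ^ 2 ≤ 3 := by
      have h9 : (1 + ε ^ 2) ^ m ≤ 3 := by
        rw [hε2]
        have h10 : 1 + 1 / (m : ℝ) ≤ Real.exp (1 / m) := by
          have := Real.add_one_le_exp (1 / (m : ℝ))
          linarith
        calc (1 + 1 / (m : ℝ)) ^ m ≤ (Real.exp (1 / m)) ^ m :=
              pow_le_pow_left₀ (by positivity) h10 m
          _ = Real.exp 1 := by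
              rw [← Real.exp_nat_mul, mul_one_div_cancel hm0.ne']
          _ ≤ 3 := by
              have := Real.exp_one_lt_d9
              linarith
      have := h6 x
      nlinarith [sq_nonneg (A x)]
    apply abs_le_of_sq_le_sq _ (by norm_num)
    linarith
  have h8 := h7 []
  rw [List.append_nil] at h8
  have h9 : (m : ℝ) * ε / 2 = Real.sqrt m / 2 := by
    rw [hε, mul_one_div, ← hss]
    rw [mul_div_assoc, Real.sqrt_mul_self hs.le, div_self hs.ne', mul_one]
  rw [h9] at h8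
  have h10 : w Bf t ≤ |C| * 2 := by
    calc w Bf t ≤ |w Bf t| := le_abs_self _
      _ ≤ C * ‖Bf‖ := hC _ _
      _ ≤ |C| * ‖Bf‖ := mul_le_mul_of_nonneg_right (le_abs_self C) (norm_nonneg _)
      _ ≤ |C| * 2 := mul_le_mul_of_nonneg_left hnorm (abs_nonneg C)
  have h11 : Real.sqrt m ≤ 4 * |C| := by linarith
  have h12 : (m : ℝ) ≤ (4 * |C|) ^ 2 := by
    rw [← hss, sq]
    exact mul_le_mul h11 h11 hs.le (by positivity)
  linarith

end

end Pool.Agent.K9h79.TSP
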