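import Pool.Agent.K9h79.TSP.Base

/-!
# Rigidity of operators on `ℓ_∞` which vanish on the finitely supported functions
-/

set_option autoImplicit false

namespace Pool.Agent.K9h79.TSP

open Filter Topology BoundedContinuousFunction

/-- `f` vanishes off the branch `i` -/
def Supp (i : ℕ → Bool) (f : B →ᵇ ℝ) : Prop := ∀ b : B, b.s ≠ res i b.n → f b = 0

open scoped Classical in
/-- the unit vectors -/
noncomputable def dl (b : B) : B →ᵇ ℝ :=
  ofNormedAddCommGroupDiscrete (fun x => if x = b then 1 else 0) 1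
    (fun x => by split_ifs <;> simp)

open scoped Classical in
lemma dl_apply (b x : B) : dl b x = if x = b then 1 else 0 := rfl

/-- the restriction of a function to a set -/
noncomputable def cut (s : Set B) (f : B →ᵇ ℝ) : B →ᵇ ℝ :=
  ofNormedAddCommGroupDiscrete (s.indicator f) ‖f‖ (fun x => by
    classical
    rw [Set.indicator_apply]
    split_ifs
    · exact f.norm_coe_le_norm x
    · simp)

lemma cut_apply (s : Set B) (f : B →ᵇ ℝ) (x : B) : cut s f x = s.indicator f x := rfl

lemma fin_mem (f : B →ᵇ ℝ) (hf : (Function.support f).Finite) :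
    f ∈ Submodule.span ℝ (Set.range dl) := by
  classical
  have h : f = ∑ b ∈ hf.toFinset, f b • dl b := by
    ext x
    rw [coe_sum, Finset.sum_apply]
    simp only [coe_smul, dl_apply, smul_eq_mul, mul_ite, mul_one, mul_zero]
    rw [Finset.sum_ite_eq]
    split_ifs with hx
    · rfl
    · by_contra h0
      exact hx (hf.mem_toFinset.2 h0)
  rw [h]
  exact Submodule.sum_mem _ fun b _ => Submodule.smul_mem _ _ (Submodule.subset_span ⟨b, rfl⟩)

lemma finite_lt (N : ℕ) : {b : B | b.n < N}.Finite := by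
  have h : {b : B | b.n < N} ⊆ ⋃ n ∈ Finset.range N,
      Set.range (fun p : (Fin n → Bool) × ((Fin n → Bool) → Bool) => (⟨n, p.1, p.2⟩ : B)) := by
    rintro ⟨n, s, q⟩ hb
    simp only [Set.mem_iUnion, Finset.mem_range]
    exact ⟨n, hb, (s, q), rfl⟩
  refine Set.Finite.subset ?_ h
  exact Set.Finite.biUnion (Finset.finite_toSet _) fun n _ => Set.finite_range _

/-- an operator which vanishes on the unit vectors vanishes on all functions on some branch -/
theorem rigid (V : (B →ᵇ ℝ) →L[ℝ] (B →ᵇ ℝ)) (hV : ∀ b, V (dl b) = 0) :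
    ∃ i : ℕ → Bool, ∀ f, Supp i f → V f = 0 := by
  classical
  by_contra hcon
  push Not at hcon
  have hfin : ∀ f : B →ᵇ ℝ, (Function.support f).Finite → V f = 0 := by
    intro f hf
    have h1 : Submodule.span ℝ (Set.range dl) ≤ LinearMap.ker (V : (B →ᵇ ℝ) →ₗ[ℝ] (B →ᵇ ℝ)) := by
      rw [Submodule.span_le]
      rintro _ ⟨b, rfl⟩
      exact hV b
    exact h1 (fin_mem f hf)
  -- normalised functions
  have h1 : ∀ i : ℕ → Bool, ∃ (f : B →ᵇ ℝ) (p : B × ℕ), Supp i f ∧ ‖f‖ ≤ 1 ∧
      1 / ((p.2 : ℝ) + 1) ≤ V f p.1 := by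
    intro i
    obtain ⟨f, hf, hVf⟩ := hcon i
    have hf0 : f ≠ 0 := fun h => hVf (by rw [h, map_zero])
    have hn : 0 < ‖f‖ := norm_pos_iff.2 hf0
    obtain ⟨b, hb⟩ : ∃ b, V f b ≠ 0 := by
      by_contra hall
      push Not at hall
      exact hVf (by ext b; exact hall b)
    -- sign
    set c : ℝ := (if 0 < V f b then 1 else -1) * ‖f‖⁻¹ with hc
    have hcV : 0 < V (c • f) b := by
      have he : V (c • f) b = c * V f b := by rw [map_smul]; rfl
      rw [he, hc]
      split_ifs with hpos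
      · have := inv_pos.2 hn
        positivity
      · have h2 : V f b < 0 := lt_of_le_of_ne (not_lt.1 hpos) hb
        have h3 := inv_pos.2 hn
        nlinarith
    obtain ⟨l, hl⟩ := exists_nat_one_div_lt hcV
    refine ⟨c • f, (b, l), fun b' hb' => ?_, ?_, hl.le⟩
    · show c * f b' = 0
      rw [hf b' hb', mul_zero]
    · rw [norm_smul, hc, norm_mul, norm_inv, norm_norm]
      have : ‖(if 0 < V f b then (1 : ℝ) else -1)‖ = 1 := by split_ifs <;> simp
      rw [this, one_mul, inv_mul_cancel₀ hn.ne']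
  choose F P hF1 hF2 hF3 using h1
  obtain ⟨⟨b, l⟩, hinf⟩ : ∃ a : B × ℕ, Infinite (P ⁻¹' {a}) := by
    apply Cardinal.exists_infinite_fiber
    calc Cardinal.mk (B × ℕ) ≤ Cardinal.aleph0 := Cardinal.mk_le_aleph0
      _ < Cardinal.mk (ℕ → Bool) := by
        simpa using Cardinal.cantor Cardinal.aleph0
  have hinf' : (P ⁻¹' {(b, l)}).Infinite := Set.infinite_coe_iff.1 hinf
  obtain ⟨m, hm⟩ := exists_nat_gt (‖V‖ * ((l : ℝ) + 1))
  obtain ⟨G, hG1, hG2⟩ := hinf'.exists_subset_card_eq m
  -- from some level on the branches are disjoint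
  have hsep : ∀ᶠ n in atTop, ∀ i ∈ G, ∀ j ∈ G, i ≠ j → res i n ≠ res j n := by
    rw [Filter.eventually_all_finset]
    intro i _
    rw [Filter.eventually_all_finset]
    intro j _
    by_cases hij : i = j
    · exact Eventually.of_forall fun n h => absurd hij h
    · exact (res_ne hij).mono fun n hn _ => hn
  obtain ⟨N, hN⟩ := eventually_atTop.1 hsep
  set f : B →ᵇ ℝ := ∑ i ∈ G, F i with hf
  set g : B →ᵇ ℝ := cut {b : B | N ≤ b.n} f with hg
  have hfg : V f = V g := by
    have h2 : V (f - g) = 0 := by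
      apply hfin
      refine (finite_lt N).subset ?_
      intro x hx
      by_contra hx2
      have hx3 : N ≤ x.n := not_lt.1 hx2
      apply hx
      rw [coe_sub, Pi.sub_apply, hg, cut_apply, Set.indicator_of_mem (show x ∈ {b : B | N ≤ b.n} from hx3),
        sub_self]
    rw [map_sub, sub_eq_zero] at h2
    exact h2
  have hgn : ‖g‖ ≤ 1 := by
    rw [BoundedContinuousFunction.norm_le zero_le_one]
    intro x
    rw [hg, cut_apply, Set.indicator_apply]
    split_ifs with hx
    · have hx : N ≤ x.n := hx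
      rw [hf, coe_sum, Finset.sum_apply]
      by_cases h3 : ∃ i ∈ G, x.s = res i x.n
      · obtain ⟨i, hi, hxi⟩ := h3
        rw [Finset.sum_eq_single i]
        · exact ((F i).norm_coe_le_norm x).trans (hF2 i)
        · intro j hj hji
          apply hF1 j
          rw [hxi]
          exact hN x.n hx i hi j hj (Ne.symm hji)
        · exact fun h => absurd hi h
      · push Not at h3
        rw [Finset.sum_eq_zero fun i hi => hF1 i x (h3 i hi)]
        simp
    · simp
  have h4 : (m : ℝ) * (1 / ((l : ℝ) + 1)) ≤ V f b := by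
    rw [hf, map_sum, coe_sum, Finset.sum_apply, ← hG2, ← nsmul_eq_mul, ← Finset.sum_const]
    refine Finset.sum_le_sum fun i hi => ?_
    have hPi : P i = (b, l) := hG1 hi
    have := hF3 i
    rw [hPi] at this
    exact this
  have h5 : V g b ≤ ‖V‖ := by
    calc V g b ≤ ‖V g b‖ := le_abs_self _
      _ ≤ ‖V g‖ := (V g).norm_coe_le_norm b
      _ ≤ ‖V‖ * ‖g‖ := V.le_opNorm g
      _ ≤ ‖V‖ * 1 := mul_le_mul_of_nonneg_left hgn (norm_nonneg V)
      _ = ‖V‖ := mul_one _
  rw [hfg] at h4
  have h6 : (m : ℝ) * (1 / ((l : ℝ) + 1)) ≤ ‖V‖ := h4.trans h5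
  have hl : (0 : ℝ) < (l : ℝ) + 1 := by positivity
  rw [mul_one_div, div_le_iff₀ hl] at h6
  linarith

end Pool.Agent.K9h79.TSP
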