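import Pool.Agent.K9h79.TSP.Riesz

/-!
# The twisted sum
-/

set_option autoImplicit false

namespace Pool.Agent.K9h79.TSP

open Filter Topology BoundedContinuousFunction

/-- `E` is universally `κ`-injective: operators into `E` extend from closed subspaces of density
character less than `κ` of arbitrary Banach spaces -/
def UnivInjective (κ : Cardinal.{0}) (E : Type) [NormedAddCommGroup E] [NormedSpace ℝ E] : Prop :=
  ∀ (W : Type) [NormedAddCommGroup W] [NormedSpace ℝ W] [CompleteSpace W] (S : Submodule ℝ W),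
    IsClosed (S : Set W) → (∃ D : Set S, Dense D ∧ Cardinal.mk D < κ) →
    ∀ t : S →L[ℝ] E, ∃ T : W →L[ℝ] E, ∀ x : S, T x = t x

lemma UnivInjective.mono {κ κ' : Cardinal.{0}} (h : κ ≤ κ') {E : Type} [NormedAddCommGroup E]
    [NormedSpace ℝ E] (hE : UnivInjective κ' E) : UnivInjective κ E := by
  intro W _ _ _ S hS ⟨D, hD1, hD2⟩ t
  exact hE W S hS ⟨D, hD1, hD2.trans_le h⟩ t

lemma UnivInjective.of_equiv {κ : Cardinal.{0}} {E F : Type} [NormedAddCommGroup E]
    [NormedSpace ℝ E] [NormedAddCommGroup F] [NormedSpace ℝ F] (e : E ≃L[ℝ] F)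
    (hE : UnivInjective κ E) : UnivInjective κ F := by
  intro W _ _ _ S hS hD t
  obtain ⟨T, hT⟩ := hE W S hS hD ((e.symm : F →L[ℝ] E).comp t)
  refine ⟨(e : E →L[ℝ] F).comp T, fun x => ?_⟩
  simp [hT x]

/-- extension of operators into `ℓ_∞(α)`, with one choice of the extended functionals -/
theorem ext_disc {α : Type} [TopologicalSpace α] [DiscreteTopology α] {W : Type}
    [NormedAddCommGroup W] [NormedSpace ℝ W] (S : Submodule ℝ W) (t : S →L[ℝ] (α →ᵇ ℝ)) :
    ∃ T : W →L[ℝ] (α →ᵇ ℝ), (∀ x : S, T x = t x) ∧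
      ∀ a a', (∀ x : S, t x a = t x a') → ∀ w, T w a = T w a' := by
  choose H hH1 hH2 using fun φ : S →L[ℝ] ℝ => _root_.exists_extension_norm_eq S φ
  set φ : α → (S →L[ℝ] ℝ) := fun a => (BoundedContinuousFunction.evalCLM ℝ a).comp t with hφ
  have hφn : ∀ a, ‖φ a‖ ≤ ‖t‖ := by
    intro a
    refine ContinuousLinearMap.opNorm_le_bound _ t.opNorm_nonneg fun x => ?_
    exact ((t x).norm_coe_le_norm a).trans (t.le_opNorm x)
  have hb : ∀ w a, ‖H (φ a) w‖ ≤ ‖t‖ * ‖w‖ := by
    intro w a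
    refine ((H (φ a)).le_opNorm w).trans ?_
    rw [hH2]
    exact mul_le_mul_of_nonneg_right (hφn a) (norm_nonneg w)
  refine ⟨LinearMap.mkContinuous
    { toFun := fun w => ofNormedAddCommGroupDiscrete (fun a => H (φ a) w) (‖t‖ * ‖w‖) (hb w)
      map_add' := fun w w' => by ext a; exact (H (φ a)).map_add w w'
      map_smul' := fun c w => by ext a; exact (H (φ a)).map_smul c w } ‖t‖ (fun w => ?_), ?_, ?_⟩
  · rw [BoundedContinuousFunction.norm_le (by positivity)]
    exact hb w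
  · intro x
    ext a
    exact hH1 (φ a) x
  · intro a a' h w
    have : φ a = φ a' := by
      ext x
      exact h x
    show H (φ a) w = H (φ a') w
    rw [this]

/-- `ℓ_∞(α)` is universally `κ`-injective -/
theorem univ_disc {α : Type} [TopologicalSpace α] [DiscreteTopology α] (κ : Cardinal.{0}) :
    UnivInjective κ (α →ᵇ ℝ) := by
  intro W _ _ _ S _ _ t
  obtain ⟨T, hT, -⟩ := ext_disc S t
  exact ⟨T, hT⟩

/-- pairs of a branch and a finite list -/
structure J (D : Type) where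
  /-- the branch -/
  i : ℕ → Bool
  /-- the list -/
  t : List (D × Bool)

instance (D : Type) : TopologicalSpace (J D) := ⊥
instance (D : Type) : DiscreteTopology (J D) := ⟨rfl⟩

section
variable {D : Type} [LinearOrder D]

/-- the twisted sum: the pairs `(f, u)` such that `u` has at `(i, t)` the jump `zz i (ξ t) f` -/
def XX [Nonempty D] (ξ : List (D × Bool) → (ℕ → Bool)) :
    Submodule ℝ ((B →ᵇ ℝ) × (J D →ᵇ ℝ)) where
  carrier := {p | ∀ (i : ℕ → Bool) (t : List (D × Bool)), ∃ β : D,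
    ∀ (α : D) (b : Bool) (l : List (D × Bool)), β ≤ α →
      p.2 ⟨i, t ++ (α, b) :: l⟩ = p.2 ⟨i, t⟩ + if b then zz i (ξ t) p.1 else 0}
  add_mem' := by
    intro p q hp hq i t
    obtain ⟨β, hβ⟩ := hp i t
    obtain ⟨γ, hγ⟩ := hq i t
    refine ⟨max β γ, fun α b l hα => ?_⟩
    have h1 := hβ α b l ((le_max_left _ _).trans hα)
    have h2 := hγ α b l ((le_max_right _ _).trans hα)
    show p.2 _ + q.2 _ = (p.2 _ + q.2 _) + if b then zz i (ξ t) (p.1 + q.1) else 0
    rw [h1, h2, zz_add]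
    split_ifs <;> ring
  zero_mem' := by
    intro i t
    obtain ⟨β⟩ := (inferInstance : Nonempty D)
    refine ⟨β, fun α b l _ => ?_⟩
    have hz : zz i (ξ t) (0 : B →ᵇ ℝ) = 0 := by simp [zz]
    show (0 : ℝ) = 0 + if b then zz i (ξ t) (0 : B →ᵇ ℝ) else 0
    rw [hz]
    split_ifs <;> simp
  smul_mem' := by
    intro c p hp i t
    obtain ⟨β, hβ⟩ := hp i t
    refine ⟨β, fun α b l hα => ?_⟩
    have h1 := hβ α b l hα
    show c * p.2 _ = c * p.2 _ + if b then zz i (ξ t) (c • p.1) else 0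
    rw [h1, zz_smul]
    split_ifs <;> ring

section
variable [Nonempty D]

lemma mem_XX {ξ : List (D × Bool) → (ℕ → Bool)} {p : (B →ᵇ ℝ) × (J D →ᵇ ℝ)} :
    p ∈ XX ξ ↔ ∀ (i : ℕ → Bool) (t : List (D × Bool)), ∃ β : D,
    ∀ (α : D) (b : Bool) (l : List (D × Bool)), β ≤ α →
      p.2 ⟨i, t ++ (α, b) :: l⟩ = p.2 ⟨i, t⟩ + if b then zz i (ξ t) p.1 else 0 := Iff.rfl

end

/-- `κ`-boundedness of `D` -/
def Bd (κ : Cardinal.{0}) (D : Type) [LinearOrder D] : Prop :=
  ∀ s : Set D, Cardinal.mk s < κ → ∃ β, ∀ x ∈ s, x < β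

lemma Bd.range {κ : Cardinal.{0}} (h : Bd κ D) {α : Type} (f : α → D) (hα : Cardinal.mk α < κ) :
    ∃ β, ∀ a, f a < β := by
  obtain ⟨β, hβ⟩ := h (Set.range f) (Cardinal.mk_range_le.trans_lt hα)
  exact ⟨β, fun a => hβ _ ⟨a, rfl⟩⟩

lemma Bd.countable {κ : Cardinal.{0}} (h : Bd κ D) (hκ : Cardinal.aleph0 < κ) {s : Set D}
    (hs : s.Countable) : ∃ β, ∀ x ∈ s, x < β :=
  h s (hs.le_aleph0.trans_lt hκ)

variable [Nonempty D]

theorem isClosed_XX {κ : Cardinal.{0}} (h : Bd κ D) (hκ : Cardinal.aleph0 < κ)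
    (ξ : List (D × Bool) → (ℕ → Bool)) : IsClosed (XX ξ : Set ((B →ᵇ ℝ) × (J D →ᵇ ℝ))) := by
  rw [← isSeqClosed_iff_isClosed]
  intro p x hp hx
  show x ∈ XX ξ
  rw [mem_XX]
  intro i t
  choose β hβ using fun n => (mem_XX.1 (hp n)) i t
  obtain ⟨γ, hγ⟩ := h.range β (by simpa using hκ)
  refine ⟨γ, fun α b l hα => ?_⟩
  have h1 : Tendsto (fun n => (p n).1) atTop (𝓝 x.1) := (continuous_fst.tendsto x).comp hx
  have h2 : Tendsto (fun n => (p n).2) atTop (𝓝 x.2) := (continuous_snd.tendsto x).comp hx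
  have h3 : ∀ j : J D, Tendsto (fun n => (p n).2 j) atTop (𝓝 (x.2 j)) := fun j =>
    ((BoundedContinuousFunction.evalCLM ℝ j).continuous.tendsto x.2).comp h2
  have h4 : Tendsto (fun n => zz i (ξ t) (p n).1) atTop (𝓝 (zz i (ξ t) x.1)) := by
    have hc : Continuous fun f : B →ᵇ ℝ => zz i (ξ t) f :=
      (mu i).continuous.comp (continuous_const.mul continuous_id)
    exact (hc.tendsto x.1).comp h1
  have h5 : Tendsto (fun n => (p n).2 ⟨i, t⟩ + if b then zz i (ξ t) (p n).1 else 0) atTop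
      (𝓝 (x.2 ⟨i, t⟩ + if b then zz i (ξ t) x.1 else 0)) := by
    refine (h3 _).add ?_
    cases b
    · simp
    · simpa using h4
  refine tendsto_nhds_unique (h3 ⟨i, t ++ (α, b) :: l⟩) (h5.congr fun n => ?_)
  exact (hβ n α b l ((hγ n).le.trans hα)).symm

/-- the twisted sum as a Banach space -/
def XT (ξ : List (D × Bool) → (ℕ → Bool)) : Type := ↥(XX ξ)

noncomputable instance (ξ : List (D × Bool) → (ℕ → Bool)) : NormedAddCommGroup (XT ξ) :=
  inferInstanceAs (NormedAddCommGroup ↥(XX ξ))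

noncomputable instance (ξ : List (D × Bool) → (ℕ → Bool)) : NormedSpace ℝ (XT ξ) :=
  inferInstanceAs (NormedSpace ℝ ↥(XX ξ))

/-- the inclusion -/
noncomputable def incl (ξ : List (D × Bool) → (ℕ → Bool)) :
    XT ξ →L[ℝ] (B →ᵇ ℝ) × (J D →ᵇ ℝ) := (XX ξ).subtypeL

lemma incl_inj (ξ : List (D × Bool) → (ℕ → Bool)) : Function.Injective (incl ξ) :=
  Subtype.val_injective

lemma incl_mem (ξ : List (D × Bool) → (ℕ → Bool)) (x : XT ξ) : incl ξ x ∈ XX ξ := Subtype.prop x

lemma norm_incl (ξ : List (D × Bool) → (ℕ → Bool)) (x : XT ξ) : ‖incl ξ x‖ = ‖x‖ := rfl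

/-- operators into the twisted sum -/
noncomputable def toXT (ξ : List (D × Bool) → (ℕ → Bool)) {W : Type} [NormedAddCommGroup W]
    [NormedSpace ℝ W] (T : W →L[ℝ] (B →ᵇ ℝ) × (J D →ᵇ ℝ)) (h : ∀ w, T w ∈ XX ξ) : W →L[ℝ] XT ξ :=
  (T.codRestrict (XX ξ) h : W →L[ℝ] ↥(XX ξ))

lemma incl_toXT (ξ : List (D × Bool) → (ℕ → Bool)) {W : Type} [NormedAddCommGroup W]
    [NormedSpace ℝ W] (T : W →L[ℝ] (B →ᵇ ℝ) × (J D →ᵇ ℝ)) (h : ∀ w, T w ∈ XX ξ) (w : W) :
    incl ξ (toXT ξ T h w) = T w := rfl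

theorem complete_XT {κ : Cardinal.{0}} (h : Bd κ D) (hκ : Cardinal.aleph0 < κ)
    (ξ : List (D × Bool) → (ℕ → Bool)) : CompleteSpace (XT ξ) :=
  (isClosed_XX h hκ ξ).completeSpace_coe

/-- the projection to `ℓ_∞` -/
noncomputable def pr (ξ : List (D × Bool) → (ℕ → Bool)) : XT ξ →L[ℝ] (B →ᵇ ℝ) :=
  (ContinuousLinearMap.fst ℝ (B →ᵇ ℝ) (J D →ᵇ ℝ)).comp (incl ξ)

lemma pr_apply (ξ : List (D × Bool) → (ℕ → Bool)) (x : XT ξ) : pr ξ x = (incl ξ x).1 := rfl

/-- the projection is surjective -/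
theorem pr_surj {κ : Cardinal.{0}} (h : Bd κ D) (hκ : Cardinal.aleph0 < κ)
    (ξ : List (D × Bool) → (ℕ → Bool)) (hξ : Function.Injective ξ) :
    Function.Surjective (pr ξ) := by
  intro f
  -- the bounds
  have h1 : ∀ i : ℕ → Bool, ∃ β : D, ∀ t : List (D × Bool), zz i (ξ t) f ≠ 0 → ∀ x ∈ t, x.1 < β := by
    intro i
    have hc : {t : List (D × Bool) | zz i (ξ t) f ≠ 0}.Countable :=
      (countable_zz i f).preimage_of_injOn hξ.injOn
    have hc2 : (⋃ t ∈ {t : List (D × Bool) | zz i (ξ t) f ≠ 0}, {d : D | ∃ x ∈ t, x.1 = d}).Countable := by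
      refine hc.biUnion fun t _ => ?_
      have : {d : D | ∃ x ∈ t, x.1 = d} = (fun x : D × Bool => x.1) '' {x | x ∈ t} := rfl
      rw [this]
      exact (List.finite_toSet t).countable.image _
    obtain ⟨β, hβ⟩ := h.countable hκ hc2
    refine ⟨β, fun t ht x hx => hβ _ ?_⟩
    rw [Set.mem_iUnion₂]
    exact ⟨t, ht, x, hx, rfl⟩
  choose β hβ using h1
  -- the function
  let u : J D → ℝ := fun j =>
    match j.t.dropWhile (fun x => decide (x.1 < β j.i)) with
    | [] => 0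
    | x :: _ => if x.2 then zz j.i (ξ (j.t.takeWhile (fun x => decide (x.1 < β j.i)))) f else 0
  have hu : ∀ j, ‖u j‖ ≤ ‖f‖ := by
    intro j
    simp only [u]
    split
    · simp
    · split_ifs
      · exact abs_zz_le _ _ _
      · simp
  refine ⟨⟨(f, ofNormedAddCommGroupDiscrete u ‖f‖ hu), ?_⟩, rfl⟩
  rw [mem_XX]
  intro i t
  refine ⟨β i, fun α b l hα => ?_⟩
  show u ⟨i, t ++ (α, b) :: l⟩ = u ⟨i, t⟩ + if b then zz i (ξ t) f else 0
  by_cases hall : ∀ x ∈ t, x.1 < β i
  · have hd1 : (t ++ (α, b) :: l).dropWhile (fun x => decide (x.1 < β i)) = (α, b) :: l := by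
      rw [List.dropWhile_append_of_pos (by simpa using hall)]
      rw [List.dropWhile_cons_of_neg (by simpa using hα)]
    have hd2 : (t ++ (α, b) :: l).takeWhile (fun x => decide (x.1 < β i)) = t := by
      rw [List.takeWhile_append_of_pos (by simpa using hall)]
      rw [List.takeWhile_cons_of_neg (by simpa using hα), List.append_nil]
    have hd3 : t.dropWhile (fun x => decide (x.1 < β i)) = [] := by
      rw [List.dropWhile_eq_nil_iff]
      simpa using hall
    simp only [u, hd1, hd2, hd3, zero_add]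
  · have hz : zz i (ξ t) f = 0 := by
      by_contra hne
      exact hall (hβ i t hne)
    rw [hz, ite_self, add_zero]
    -- the first large entry is the same
    have hne : t.dropWhile (fun x => decide (x.1 < β i)) ≠ [] := by
      rw [Ne, List.dropWhile_eq_nil_iff]
      simpa using hall
    obtain ⟨x, r, hxr⟩ := List.exists_cons_of_ne_nil hne
    have e1 : t = t.takeWhile (fun x => decide (x.1 < β i)) ++ x :: r := by
      rw [← hxr, List.takeWhile_append_dropWhile]
    have hx : ¬ (decide (x.1 < β i) = true) := by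
      have := List.head_dropWhile_not (fun x : D × Bool => decide (x.1 < β i)) hne
      simp only [hxr, List.head_cons] at this
      simp [this]
    have hpos : ∀ y ∈ t.takeWhile (fun x => decide (x.1 < β i)), decide (y.1 < β i) = true :=
      fun y hy => List.mem_takeWhile_imp (p := fun x : D × Bool => decide (x.1 < β i)) hy
    have e2 : t ++ (α, b) :: l =
        t.takeWhile (fun x => decide (x.1 < β i)) ++ (x :: (r ++ (α, b) :: l)) := by
      conv_lhs => rw [e1]
      simp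
    have hd1 : (t ++ (α, b) :: l).dropWhile (fun x => decide (x.1 < β i)) =
        x :: (r ++ (α, b) :: l) := by
      rw [e2, List.dropWhile_append_of_pos hpos,
        List.dropWhile_cons_of_neg (p := fun x : D × Bool => decide (x.1 < β i)) hx]
    have hd2 : (t ++ (α, b) :: l).takeWhile (fun x => decide (x.1 < β i)) =
        t.takeWhile (fun x => decide (x.1 < β i)) := by
      rw [e2, List.takeWhile_append_of_pos hpos,
        List.takeWhile_cons_of_neg (p := fun x : D × Bool => decide (x.1 < β i)) hx,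
        List.append_nil]
    simp only [u, hd1, hd2, hxr]

end

end Pool.Agent.K9h79.TSP
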